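import Pool.Agent.Q202.QT.DensN
import Pool.Agent.Q202.QT.Ker
import Pool.Agent.Results.MP_ca71b5_nt.RankTwoExtensions

/-!
# Everywhere unramified representations of rank two over fields ramified at random primes, `p ≥ 5`

Let `p ≥ 5` be a prime and let `T` be a set of three or four primes `≡ 1` modulo `p` (for four primes
the Galois group of the maximal `p`-extension of `ℚ` unramified outside `T` is infinite, by the theorem
of Golod and Shafarevich, not proved here). For most triples, and for about half of the primes as a fourth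
member, the following holds: for all number fields `K` which are unramified outside `T` and outside
primes not congruent to `0` or `1` modulo `p`, every continuous, residually unipotent
`ρ : Gal(ℚbar/ℚ) → GL_2(A)`, which is everywhere unramified over `K`, has finite image. Similarly
for `p` together with two or three primes.

Proof. The starting result `RankTwoExtensions` asks that a system of bilinear equations given by the
linking numbers has no solution of rank two. For three places this is the non-vanishing of a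
determinant. For four places the solutions of rank two are the two points of a line on the Grassmannian
of planes, they are conjugate if a discriminant in the twelve linking numbers is not a square, and the
linking numbers of a new prime with the given ones are equidistributed up to scaling
(`Pool.Agent.Q202.QT.dens_tame`, `dens_wild`, from the theorem of Chebotarev).
-/

set_option autoImplicit false

open NumberField Matrix IsLocalRing

namespace Pool.Agent.Results.MP_ca71b5_nt.FourthPrime

open Finset Filter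
open Pool.Agent.Results.MP_ca71b5_nt.RankTwoExtensions (FieldUnramifiedOutside UnramifiedOver
  ResiduallyUnipotent Tame linking NoPlane)
open Pool.Agent.Q202.RT Pool.Agent.Q202.QT
open Pool.Agent.W569.TG (lk)

/-- `AlwaysFinite p W R T`: let `S` be a finite set of primes whose members congruent to `1` modulo `p`
are in `T`, and which contains `p` only if `W` holds. For all number fields `K` which are unramified
outside `S`, for all discrete valuation rings `A` of characteristic `0` with residue field of order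
`p ^ d`, where `R d` holds, with the adic topology, every continuous `ρ : Gal(ℚbar/ℚ) → GL_2(A)`,
residually unipotent, whose restriction to the absolute Galois group of `K` is unramified at all
finite primes, has finite image. -/
def AlwaysFinite (p : ℕ) (W : Prop) (R : ℕ → Prop) (T : Finset ℕ) : Prop :=
  ∀ S : Finset ℕ, (∀ l ∈ S, l.Prime) → (∀ l ∈ S, p ∣ l - 1 → l ∈ T) → (p ∈ S → W) →
  ∀ (K : IntermediateField ℚ (AlgebraicClosure ℚ)) [FiniteDimensional ℚ K],
    FieldUnramifiedOutside S K →
  ∀ (A : Type) [CommRing A] [IsDomain A] [IsDiscreteValuationRing A] [CharZero A]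
    [TopologicalSpace A], IsAdic (maximalIdeal A) →
    (∃ d, R d ∧ 1 ≤ d ∧ Nat.card (ResidueField A) = p ^ d) →
  ∀ ρ : Gal(AlgebraicClosure ℚ/ℚ) →* GL (Fin 2) A, Continuous ρ → UnramifiedOver K ρ →
    ResiduallyUnipotent ρ → (Set.range ρ).Finite

open Classical in
/-- The primes `q ≤ x` with `p ∣ q - 1`. -/
noncomputable def Pr (p x : ℕ) : Finset ℕ := (range (x + 1)).filter fun q => q.Prime ∧ p ∣ q - 1

open Classical in
/-- `ForShare p c P T`: the primes `q ≡ 1 mod p`, `q ∉ T`, such that `T ∪ {q}` has the property `P`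
are at least the proportion `c` of the primes `q ≡ 1 mod p` (lower density). -/
def ForShare (p : ℕ) (c : ℝ) (P : Finset ℕ → Prop) (T : Finset ℕ) : Prop :=
  ∀ ε : ℝ, 0 < ε → ∀ᶠ x : ℕ in atTop, (c - ε) * ((Pr p x).card : ℝ) ≤
    (((Pr p x).filter fun q => q ∉ T ∧ P (insert q T)).card : ℝ)

/-- `(1 - 1 / p) ^ 5 (1 - 4 / p) / 2` -/
noncomputable def half (p : ℕ) : ℝ := (1 - 1 / (p : ℝ)) ^ 5 * (1 - 4 / (p : ℝ)) / 2

theorem Pr_eq (p x : ℕ) [Fact p.Prime] : Pr p x = P1 p x := by
  ext l
  rw [mem_P1, Pr, mem_filter, mem_range]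
  constructor
  · rintro ⟨h1, h2, h3⟩
    exact ⟨by omega, h2, h3⟩
  · rintro ⟨h1, h2, h3⟩
    exact ⟨by omega, h2, h3⟩

theorem half_eq (p : ℕ) [hp : Fact p.Prime] : half p = dlt p := by
  have h0 : (p : ℝ) ≠ 0 := by exact_mod_cast hp.out.ne_zero
  unfold half dlt
  field_simp

section
variable {p : ℕ} [hpF : Fact p.Prime]

/-- from `NoPlane` to finiteness; `S` may be enlarged by `T` -/
theorem of_noPlane (hp2 : p ≠ 2) {W : Prop} {R : ℕ → Prop} {T : Finset ℕ}
    (hT : ∀ l ∈ T, l.Prime ∧ p ∣ l - 1) (χ : ∀ j : ℕ, (ZMod j)ˣ →* Multiplicative (ZMod p))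
    (hχ : Kr χ)
    (h : ∀ (F : Type) [Field F] [Finite F] [CharP F p] (d : ℕ), R d → Nat.card F = p ^ d →
      ∀ S : Finset ℕ, Tame p S = T → (p ∈ S → W) → NoPlane F p S χ) : AlwaysFinite p W R T := by
  intro S hS hST hW K _ hK A _ _ _ _ _ hA ⟨d, hR, hd, hcard⟩ ρ hρ hur hres
  have hp : p.Prime := hpF.out
  have hfin : Finite (ResidueField A) := Nat.finite_of_card_ne_zero (by
    rw [hcard]; exact pow_ne_zero _ hp.ne_zero)
  have hpm : (p : A) ∈ maximalIdeal A := by
    have h1 : ((p : ℕ) : ResidueField A) ^ d = 0 := by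
      have := Fintype.ofFinite (ResidueField A)
      have h2 : ((Nat.card (ResidueField A) : ℕ) : ResidueField A) = 0 := by
        rw [Nat.card_eq_fintype_card]
        exact Nat.cast_card_eq_zero (ResidueField A)
      rw [hcard] at h2
      push_cast at h2
      exact h2
    have h2 : ((p : ℕ) : ResidueField A) = 0 := eq_zero_of_pow_eq_zero h1
    rw [← residue_eq_zero_iff, map_natCast]
    exact h2
  have hchar : CharP (ResidueField A) p := Pool.Agent.TH831.OE.charP_res hp hpm
  have hTame : Tame p (S ∪ T) = T := by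
    ext l
    rw [Tame, mem_filter, mem_union]
    constructor
    · rintro ⟨h1 | h1, h2⟩
      · exact hST l h1 h2
      · exact h1
    · intro h1
      exact ⟨Or.inr h1, (hT l h1).2⟩
  have hpT : p ∉ T := fun h1 => hnep (hT p h1).1 (hT p h1).2 rfl
  refine RankTwoExtensions.result p hp2 (S ∪ T) (fun l hl => ?_) K
    (fun P hP hl => hK P hP fun l h1 => hl l (mem_union_left _ h1)) A hA hfin hpm ρ hρ hur hres
    (Or.inl ⟨χ, fun l hl => ?_, h (ResidueField A) d hR hcard (S ∪ T) hTame fun h1 => ?_⟩)
  · rcases mem_union.1 hl with h1 | h1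
    · exact hS l h1
    · exact (hT l h1).1
  · rw [hTame] at hl
    exact (hχ l (hT l hl).1 (hT l hl).2).1
  · rcases mem_union.1 h1 with h2 | h2
    · exact hW h2
    · exact absurd h2 hpT

omit hpF in
theorem share_mono {c : ℝ} {P Q : Finset ℕ → Prop} {T : Finset ℕ} (h : ForShare p c P T)
    (hPQ : ∀ q : ℕ, q.Prime → p ∣ q - 1 → q ∉ T → P (insert q T) → Q (insert q T)) :
    ForShare p c Q T := by
  classical
  intro ε hε
  filter_upwards [h ε hε] with x hx
  refine hx.trans (Nat.cast_le.2 (card_le_card fun q hq => ?_))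
  rw [mem_filter] at hq ⊢
  have h1 := hq.1
  rw [Pr, mem_filter] at h1
  exact ⟨hq.1, hq.2.1, hPQ q h1.2.1 h1.2.2 hq.2.1 hq.2.2⟩

theorem insert3 (a b q : ℕ) : insert q (insert b ({a} : Finset ℕ)) = {a, b, q} := by
  ext x
  simp only [mem_insert, mem_singleton]
  tauto

theorem insert4 (a b c q : ℕ) : insert q ({a, b, c} : Finset ℕ) = {a, b, c, q} := by
  ext x
  simp only [mem_insert, mem_singleton]
  tauto

open Classical in
/-- vectors with a nonzero coordinate -/
theorem card_ne {k : ℕ} (i : Fin k) :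
    ((univ : Finset (Fin k → ZMod p)).filter fun w => w i ≠ 0).card = (p - 1) * p ^ (k - 1) := by
  have h1 : ((univ : Finset (Fin k → ZMod p)).filter fun w => w i ≠ 0) =
      Fintype.piFinset fun j => if j = i then (univ : Finset (ZMod p)).erase 0 else univ := by
    ext w
    rw [mem_filter, Fintype.mem_piFinset]
    constructor
    · intro h j
      split_ifs with hj
      · subst hj
        exact mem_erase.2 ⟨h.2, mem_univ _⟩
      · exact mem_univ _
    · intro h
      refine ⟨mem_univ _, ?_⟩
      have := h i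
      rw [if_pos rfl] at this
      exact (mem_erase.1 this).1
  rw [h1, Fintype.card_piFinset, ← Finset.mul_prod_erase univ _ (mem_univ i), if_pos rfl,
    card_erase_of_mem (mem_univ _), card_univ, ZMod.card]
  congr 1
  rw [prod_congr rfl (g := fun _ => p) (fun j hj => by
    rw [if_neg (ne_of_mem_erase hj), card_univ, ZMod.card]), prod_const, card_erase_of_mem (mem_univ _),
    card_univ, Fintype.card_fin]

open Classical in
/-- solutions of a linear inequation -/
theorem card_lin {u v : ZMod p} (hu : u ≠ 0) :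
    p ^ 2 - p ≤ ((univ : Finset (Fin 2 → ZMod p)).filter fun s => s 0 * u - s 1 * v ≠ 0).card := by
  have h1 : ((univ : Finset (Fin 2 → ZMod p)).filter fun s => s 0 * u - s 1 * v = 0).card ≤ p := by
    have : ((univ : Finset (Fin 2 → ZMod p)).filter fun s => s 0 * u - s 1 * v = 0).card ≤
        (univ : Finset (ZMod p)).card := by
      refine card_le_card_of_injOn (fun s => s 1) (fun s _ => mem_univ _) ?_
      intro s hs t ht hst
      rw [mem_coe, mem_filter] at hs ht
      have hst' : s 1 = t 1 := hst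
      have h0 : s 0 = t 0 := by
        have h2 : (s 0 - t 0) * u = 0 := by
          have := hs.2
          have h3 := ht.2
          rw [hst'] at this
          linear_combination this - h3
        exact sub_eq_zero.1 ((mul_eq_zero.1 h2).resolve_right hu)
      funext i
      fin_cases i
      · exact h0
      · exact hst'
    rwa [card_univ, ZMod.card] at this
  have h2 := card_filter_add_card_filter_not (s := (univ : Finset (Fin 2 → ZMod p)))
    (fun s => s 0 * u - s 1 * v = 0)
  rw [card_univ, Fintype.card_fun, ZMod.card, Fintype.card_fin] at h2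
  simp only [ne_eq]
  omega

/-- the third member of a tame triple -/
theorem third_tame (hp2 : p ≠ 2) (χ : ∀ j : ℕ, (ZMod j)ˣ →* Multiplicative (ZMod p)) (hχ : Kr χ)
    (a b : ℕ) (ha : a.Prime) (hb : b.Prime) (hpa : p ∣ a - 1) (hpb : p ∣ b - 1) (hab : a ≠ b)
    (h12 : lk χ a b ≠ 0) {P : Finset ℕ → Prop}
    (h : ∀ q : ℕ, q.Prime → p ∣ q - 1 → a ≠ q → b ≠ q → D3 χ a b q ≠ 0 → P {a, b, q}) :
    ForShare p ((1 - 1 / (p : ℝ)) ^ 2) P (insert b {a}) := by
  classical
  intro ε hε
  filter_upwards [bad_triple hp2 χ hχ a b ha hb hpa hpb hab h12 ε hε] with x hx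
  have h1 := card_filter_add_card_filter_not (s := P1 p x) (fun q => D3 χ a b q = 0)
  have h2 : ((P1 p x).filter fun q => ¬ D3 χ a b q = 0).card ≤
      ((Pr p x).filter fun q => q ∉ insert b ({a} : Finset ℕ) ∧ P (insert q (insert b {a}))).card := by
    refine card_le_card fun q hq => ?_
    rw [mem_filter] at hq ⊢
    obtain ⟨hq1, hq2⟩ := hq
    rw [mem_P1] at hq1
    have hqa : a ≠ q := by
      rintro rfl
      apply hq2
      unfold D3
      rw [lk_self χ ha.ne_one]
      ring
    have hqb : b ≠ q := by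
      rintro rfl
      apply hq2
      unfold D3
      rw [lk_self χ hb.ne_one]
      ring
    refine ⟨?_, ?_, ?_⟩
    · rw [Pr_eq, mem_P1]
      exact hq1
    · simp only [mem_insert, mem_singleton]
      rintro (h3 | h3)
      · exact hqb h3.symm
      · exact hqa h3.symm
    · rw [insert3]
      exact h q hq1.2.1 hq1.2.2 hqa hqb hq2
  have h3 : (((P1 p x).filter fun q => D3 χ a b q = 0).card : ℝ) +
      (((P1 p x).filter fun q => ¬ D3 χ a b q = 0).card : ℝ) = ((P1 p x).card : ℝ) := by
    exact_mod_cast h1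
  have h4 : (((P1 p x).filter fun q => ¬ D3 χ a b q = 0).card : ℝ) ≤
      (((Pr p x).filter fun q => q ∉ insert b ({a} : Finset ℕ) ∧ P (insert q (insert b {a}))).card : ℝ) := by
    exact_mod_cast h2
  have e : ((Pr p x).card : ℝ) = ((P1 p x).card : ℝ) := by rw [Pr_eq]
  rw [e]
  nlinarith

/-- the first wild step and the second tame step -/
theorem first (hp2 : p ≠ 2) (χ : ∀ j : ℕ, (ZMod j)ˣ →* Multiplicative (ZMod p)) (hχ : Kr χ)
    {m : ℕ} (l : Fin m → ℕ) (hl : ∀ i, (l i).Prime) (hpl : ∀ i, p ∣ l i - 1)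
    (hli : Function.Injective l) (i : Fin (m + 1)) {P : Finset ℕ → Prop}
    (h : ∀ q : ℕ, q.Prime → p ∣ q - 1 → (∀ i, q ≠ l i) →
      lk χ ((Fin.cons p l : Fin (m + 1) → ℕ) i) q ≠ 0 → P (insert q (univ.image l))) :
    ForShare p (1 - 1 / (p : ℝ)) P (univ.image l) := by
  classical
  have hp : p.Prime := hpF.out
  have hp0 : (0 : ℝ) < p := by exact_mod_cast hp.pos
  intro ε hε
  obtain ⟨Good, hGood⟩ : ∃ G : (Fin (m + 1) → ZMod p) → (Fin (m + 1) → ZMod p) → Prop,
      G = fun w _ => w i ≠ 0 := ⟨_, rfl⟩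
  have hd := densN hp2 χ hχ l hl hpl hli Good
    (fun w _ h0 h1 => by rw [hGood] at h0; exact h0 (by rw [h1]; rfl))
    (fun w _ c hc h0 => by rw [hGood] at h0 ⊢; exact mul_ne_zero hc h0) (1 - 1 / (p : ℝ)) (by
      have : (0 : ℝ) < 1 / p := by positivity
      linarith) (by
      have e : ∀ w : Fin (m + 1) → ZMod p, ((univ : Finset (Fin (m + 1) → ZMod p)).filter
          fun s => Good w s).card = if w i ≠ 0 then p ^ (m + 1) else 0 := by
        intro w
        split_ifs with h0
        · rw [filter_true_of_mem (fun _ _ => by rw [hGood]; exact h0), card_univ, Fintype.card_fun, ZMod.card,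
            Fintype.card_fin]
        · rw [filter_false_of_mem (fun _ _ => by rw [hGood]; exact h0), card_empty]
      rw [sum_congr rfl fun w _ => e w, ← sum_filter, sum_const, card_ne, smul_eq_mul, Nat.add_sub_cancel,
        Fintype.card_fin, Fintype.card_fun, ZMod.card, Fintype.card_fin]
      push_cast [Nat.cast_sub hp.one_le]
      rw [le_div_iff₀ (by positivity)]
      apply le_of_eq
      field_simp
      ring) ε hε
  filter_upwards [hd] with x hx
  rw [Pr_eq]
  refine le_trans hx (Nat.cast_le.2 (card_le_card fun q hq => ?_))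
  obtain ⟨h1, h2, h3⟩ := (@Finset.mem_filter _ _ _ _ _).1 hq
  rw [hGood] at h3
  obtain ⟨-, hqp, hpq⟩ := mem_P1.1 h1
  simp only [Finset.mem_filter]
  refine ⟨h1, ?_, h q hqp hpq h2 h3⟩
  rw [mem_image]
  rintro ⟨j, -, hj⟩
  exact h2 j hj.symm

/-- the second member, wild case -/
theorem second_wild (hp2 : p ≠ 2) (χ : ∀ j : ℕ, (ZMod j)ˣ →* Multiplicative (ZMod p)) (hχ : Kr χ)
    (k : ℕ) (hk : k.Prime) (hpk : p ∣ k - 1) (hA : lk χ p k ≠ 0) {P : Finset ℕ → Prop}
    (h : ∀ l : ℕ, l.Prime → p ∣ l - 1 → k ≠ l → Dt χ k l ≠ 0 → P {k, l}) :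
    ForShare p ((1 - 1 / (p : ℝ)) ^ 2) P {k} := by
  classical
  have hp : p.Prime := hpF.out
  have hp0 : (0 : ℝ) < p := by exact_mod_cast hp.pos
  have hp1 : (1 : ℝ) ≤ p := by exact_mod_cast hp.one_le
  intro ε hε
  obtain ⟨Good, hGood⟩ : ∃ G : (Fin (1 + 1) → ZMod p) → (Fin (1 + 1) → ZMod p) → Prop,
      G = fun w s => s 0 * (lk χ p k * w 1) - s 1 * (lv p k * w 0) ≠ 0 := ⟨_, rfl⟩
  have hd := densN hp2 χ hχ (fun _ : Fin 1 => k) (fun _ => hk) (fun _ => hpk)
    (fun i j _ => Subsingleton.elim i j) Good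
    (fun w s h0 h1 => by
      rw [hGood] at h0
      exact h0 (by rw [h1]; simp))
    (fun w s c hc h0 => by
      rw [hGood] at h0 ⊢
      have e : s 0 * (lk χ p k * (c * w 1)) - s 1 * (lv p k * (c * w 0)) =
          c * (s 0 * (lk χ p k * w 1) - s 1 * (lv p k * w 0)) := by ring
      show s 0 * (lk χ p k * (c * w 1)) - s 1 * (lv p k * (c * w 0)) ≠ 0
      rw [e]
      exact mul_ne_zero hc h0) ((1 - 1 / (p : ℝ)) ^ 2) (by
      have h1 : (0 : ℝ) < 1 / p := by positivity
      have h2 : 1 / (p : ℝ) ≤ 1 := by rw [div_le_one hp0]; exact hp1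
      nlinarith) (by
      have e : ∑ w : Fin (1 + 1) → ZMod p, (if w 1 ≠ 0 then p ^ 2 - p else 0) ≤
          ∑ w : Fin (1 + 1) → ZMod p, ((univ : Finset (Fin (1 + 1) → ZMod p)).filter
            fun s => Good w s).card := by
        refine sum_le_sum fun w _ => ?_
        split_ifs with h0
        · have h1 := card_lin (v := lv p k * w 0) (mul_ne_zero hA h0)
          refine h1.trans (card_le_card fun s hs => (@Finset.mem_filter _ _ _ _ _).2 ⟨mem_univ _, ?_⟩)
          rw [hGood]
          exact ((@Finset.mem_filter _ _ _ _ _).1 hs).2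
        · exact Nat.zero_le _
      rw [← sum_filter, sum_const, card_ne (k := 1 + 1) 1, smul_eq_mul] at e
      have hppos : (0 : ℝ) < (p : ℝ) ^ (1 + 1) * ((p ^ (1 + 1) : ℕ) : ℝ) := by
        have : 0 < p ^ (1 + 1) := pow_pos hp.pos _
        have h3 : (0 : ℝ) < ((p ^ (1 + 1) : ℕ) : ℝ) := by exact_mod_cast this
        positivity
      rw [Fintype.card_fin, Fintype.card_fun, ZMod.card, Fintype.card_fin, le_div_iff₀ hppos]
      have e' : (((p - 1) * p ^ (1 + 1 - 1) * (p ^ 2 - p) : ℕ) : ℝ) ≤
          ((∑ w : Fin (1 + 1) → ZMod p, ((univ : Finset (Fin (1 + 1) → ZMod p)).filter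
            fun s => Good w s).card : ℕ) : ℝ) := Nat.cast_le.2 e
      refine le_trans (le_of_eq ?_) e'
      have hpp : p ≤ p ^ 2 := by nlinarith [hp.one_le]
      push_cast [Nat.cast_sub hp.one_le, Nat.cast_sub hpp]
      field_simp) ε hε
  filter_upwards [hd] with x hx
  rw [Pr_eq]
  refine le_trans hx (Nat.cast_le.2 (card_le_card fun q hq => ?_))
  obtain ⟨h1, h2, h3⟩ := (@Finset.mem_filter _ _ _ _ _).1 hq
  rw [hGood] at h3
  obtain ⟨-, hqp, hpq⟩ := mem_P1.1 h1
  have hkq : k ≠ q := fun h => h2 0 h.symm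
  simp only [Finset.mem_filter]
  refine ⟨h1, ?_, ?_⟩
  · rw [mem_singleton]
    exact fun h => hkq h.symm
  · have e : insert q ({k} : Finset ℕ) = {k, q} := by
      ext x
      simp only [mem_insert, mem_singleton]
      tauto
    rw [e]
    refine h q hqp hpq hkq fun hD => h3 ?_
    unfold Dt at hD
    show lv p q * (lk χ p k * lk χ k q) - lk χ q k * (lv p k * lk χ p q) = 0
    linear_combination hD

theorem fourth_tame (hp5 : 5 ≤ p) (χ : ∀ j : ℕ, (ZMod j)ˣ →* Multiplicative (ZMod p)) (hχ : Kr χ)
    (a b c : ℕ) (ha : a.Prime) (hb : b.Prime) (hc : c.Prime) (hpa : p ∣ a - 1) (hpb : p ∣ b - 1)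
    (hpc : p ∣ c - 1) (hab : a ≠ b) (hac : a ≠ c) (hbc : b ≠ c) (hD : D3 χ a b c ≠ 0) :
    ForShare p (half p) (AlwaysFinite p False Odd) {a, b, c} := by
  classical
  have hp2 : p ≠ 2 := by omega
  intro ε hε
  rw [half_eq]
  filter_upwards [dens_tame hp5 χ hχ a b c ha hb hc hpa hpb hpc hab hac hbc hD ε hε] with x hx
  rw [Pr_eq]
  refine le_trans hx (Nat.cast_le.2 (card_le_card fun q hq => ?_))
  obtain ⟨h1, h2, h3, h4, h5⟩ := (@Finset.mem_filter _ _ _ _ _).1 hq
  obtain ⟨-, hqp, hpq⟩ := mem_P1.1 h1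
  simp only [Finset.mem_filter]
  refine ⟨h1, ?_, ?_⟩
  · simp only [mem_insert, mem_singleton]
    tauto
  · rw [insert4]
    refine of_noPlane hp2 ?_ χ hχ fun F _ _ _ d hd hcard S hS hW => ?_
    · intro l hl
      simp only [mem_insert, mem_singleton] at hl
      rcases hl with rfl | rfl | rfl | rfl
      · exact ⟨ha, hpa⟩
      · exact ⟨hb, hpb⟩
      · exact ⟨hc, hpc⟩
      · exact ⟨hqp, hpq⟩
    · exact plane_tame hp2 hd hcard χ S a b c q ha.ne_one hb.ne_one hc.ne_one hqp.ne_one hS hab hac
        (Ne.symm h2) hbc (Ne.symm h3) (Ne.symm h4) hW h5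

theorem third_wild (hp5 : 5 ≤ p) (χ : ∀ j : ℕ, (ZMod j)ˣ →* Multiplicative (ZMod p)) (hχ : Kr χ)
    (k l : ℕ) (hk : k.Prime) (hl : l.Prime) (hpk : p ∣ k - 1) (hpl : p ∣ l - 1) (hkl : k ≠ l)
    (hD : Dt χ k l ≠ 0) :
    ForShare p (half p) (AlwaysFinite p True Odd) {k, l} := by
  classical
  have hp2 : p ≠ 2 := by omega
  intro ε hε
  rw [half_eq]
  filter_upwards [dens_wild hp5 χ hχ k l hk hl hpk hpl hkl hD ε hε] with x hx
  rw [Pr_eq]
  refine le_trans hx (Nat.cast_le.2 (card_le_card fun q hq => ?_))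
  obtain ⟨h1, h2, h3, h4⟩ := (@Finset.mem_filter _ _ _ _ _).1 hq
  obtain ⟨-, hqp, hpq⟩ := mem_P1.1 h1
  simp only [Finset.mem_filter]
  refine ⟨h1, ?_, ?_⟩
  · simp only [mem_insert, mem_singleton]
    tauto
  · have e : insert q ({k, l} : Finset ℕ) = {k, l, q} := by
      ext x
      simp only [mem_insert, mem_singleton]
      tauto
    rw [e]
    refine of_noPlane hp2 ?_ χ hχ fun F _ _ _ d hd hcard S hS _ => ?_
    · intro z hz
      simp only [mem_insert, mem_singleton] at hz
      rcases hz with rfl | rfl | rfl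
      · exact ⟨hk, hpk⟩
      · exact ⟨hl, hpl⟩
      · exact ⟨hqp, hpq⟩
    · exact plane_wild hp2 hd hcard χ S k l q hk.ne_one hl.ne_one hqp.ne_one hS hkl (Ne.symm h2)
        (Ne.symm h3) h4

end

/-- **Everywhere unramified representations of rank two over fields ramified at random primes.** Let
`p ≥ 5` be a prime.
(1) For every prime `a ≡ 1 mod p`, for at least the proportion `1 - 1/p` of the primes
`b ≡ 1 mod p`, for at least the proportion `(1 - 1/p)²` of the primes `c ≡ 1 mod p`, we have
`AlwaysFinite` for `{a, b, c}`, for all finite residue fields of characteristic `p`; and for at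
least the proportion `(1 - 1/p)⁵ (1 - 4/p) / 2` of the primes `q ≡ 1 mod p` we have `AlwaysFinite` for
`{a, b, c, q}`, for the residue fields of order `p ^ d` with `d` odd.
(2) The same with `p` in place of the first prime. -/
theorem result (p : ℕ) [Fact p.Prime] (hp5 : 5 ≤ p) :
    (∀ a : ℕ, a.Prime → p ∣ a - 1 →
      ForShare p (1 - 1 / (p : ℝ)) (ForShare p ((1 - 1 / (p : ℝ)) ^ 2) fun T =>
        AlwaysFinite p False (fun _ => True) T ∧ ForShare p (half p) (AlwaysFinite p False Odd) T) {a}) ∧
    ForShare p (1 - 1 / (p : ℝ)) (ForShare p ((1 - 1 / (p : ℝ)) ^ 2) fun T =>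
        AlwaysFinite p True (fun _ => True) T ∧ ForShare p (half p) (AlwaysFinite p True Odd) T) ∅ := by
  classical
  have hp2 : p ≠ 2 := by omega
  obtain ⟨χ, hχ, -⟩ := extend (p := p) (fun _ => 1) ∅ (fun j hj => absurd hj (Set.notMem_empty j))
  constructor
  · intro a ha hpa
    have e1 : univ.image (fun _ : Fin 1 => a) = {a} := by
      ext x
      simp [eq_comm]
    rw [← e1]
    refine first hp2 χ hχ (fun _ : Fin 1 => a) (fun _ => ha) (fun _ => hpa)
      (fun i j _ => Subsingleton.elim i j) 1 fun b hb hpb hab h1 => ?_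
    have hab' : a ≠ b := fun h => hab 0 h.symm
    rw [e1]
    refine third_tame hp2 χ hχ a b ha hb hpa hpb hab' h1 fun c hc hpc hac hbc hD => ⟨?_, ?_⟩
    · refine of_noPlane hp2 ?_ χ hχ fun F _ _ _ d _ _ S hS hW => ?_
      · intro z hz
        simp only [mem_insert, mem_singleton] at hz
        rcases hz with rfl | rfl | rfl
        · exact ⟨ha, hpa⟩
        · exact ⟨hb, hpb⟩
        · exact ⟨hc, hpc⟩
      · exact plane_triple χ S a b c ha.ne_one hb.ne_one hc.ne_one hS hab' hac hbc hW hD
    · exact fourth_tame hp5 χ hχ a b c ha hb hc hpa hpb hpc hab' hac hbc hD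
  · have e1 : univ.image (Fin.elim0 : Fin 0 → ℕ) = ∅ := by
      ext x
      simp
    rw [← e1]
    refine first hp2 χ hχ (Fin.elim0 : Fin 0 → ℕ) (fun i => i.elim0) (fun i => i.elim0)
      (fun i => i.elim0) 0 fun k hk hpk _ h1 => ?_
    rw [e1]
    refine second_wild hp2 χ hχ k hk hpk h1 fun l hl hpl hkl hD => ⟨?_, ?_⟩
    · refine of_noPlane hp2 ?_ χ hχ fun F _ _ _ d _ _ S hS _ => ?_
      · intro z hz
        simp only [mem_insert, mem_singleton] at hz
        rcases hz with rfl | rfl
        · exact ⟨hk, hpk⟩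
        · exact ⟨hl, hpl⟩
      · exact plane_pair χ S k l hk.ne_one hl.ne_one hS hkl hD
    · exact third_wild hp5 χ hχ k l hk hl hpk hpl hkl hD

end Pool.Agent.Results.MP_ca71b5_nt.FourthPrime
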