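import Pool.Agent.U849.FO.Qu7

/-!
# Frobenius eigenvalues of everywhere unramified `p`-adic representations: a zero-one law

Let `K` be a number field, `p` a prime number and `ρ : G_K → GL_n(ℚ_p)` a continuous representation.
Suppose that for the places `v` of a set of positive upper density all ratios of the eigenvalues of
`ρ(Frob_v)` are roots of unity (for example, all eigenvalues are roots of unity).

* Then `ρ` is virtually solvable: the image of an open subgroup of `G_K` is solvable.
* If all open subgroups of `ρ(G_K)` have finite abelianizations (`FiniteAbelianizations`) then `ρ` has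
  finite image.
* In particular, if `ρ` is everywhere unramified, and if the extensions of finite degree of `K` have finite
  maximal unramified abelian extensions (`FiniteUnramifiedAbelian`, which is class field theory, not
  formalized), then `ρ` has finite image.

So if `Γ` is an infinite `p`-adic analytic quotient of the Galois group of the `p`-class field tower of `K`
then, in every faithful representation of `Γ`, the Frobenius elements of almost all places (a set of
places of density one) have two eigenvalues whose ratio is not a root of unity.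

Proof. By passing to the adjoint representation we may suppose that the eigenvalues of many `ρ(Frob_v)` are
roots of unity. They have bounded order `M`, since quasi-unipotent matrices near `1` are unipotent
(`p`-adic logarithm). By Chebotarev's theorem for closed sets the set of all `x` with
`(ρ(x) ^ M - 1) ^ n = 0` has positive Haar measure, so that it contains a coset `g U` of an open subgroup.
Let `ρ` be irreducible over the completed algebraic closure `ℂ_p`. Let `L` be the span of the
logarithms of the elements of a small open normal subgroup, a Lie algebra. The derivatives of the equations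
`tr(ρ(g u) ^ (M k)) = n` show that the logarithm of a power of `ρ(g u)` is a nilpotent element of
the radical `I` of the trace form of `L`. By Cartan's criterion (Mathlib) `[I, I]` acts nilpotently, so the
vectors killed by it form a nonzero stable subspace and `[I, I] = 0`; then the same is true for the nilpotent
elements of `I`, which commute. So these elements vanish and the elements of `g U` have finite order.
Now `L` has the automorphism `Ad ρ(g)` of finite order without fixed points, and it is solvable by
Kreknin's theorem.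
-/

set_option autoImplicit false

namespace Pool.Agent.Results.MP_ca71b5_nt.FrobeniusRatios

open NumberField IsDedekindDomain Filter

/-- the absolute Galois group of the field `K`, with the Krull topology -/
abbrev AbsGal (K : Type) [Field K] : Type := Gal(AlgebraicClosure K/K)

section
variable {K : Type} [Field K]

/-- `g` is an arithmetic Frobenius element at the ideal `Q` of the ring of all algebraic integers, for a
residue field with `q` elements of the place below `Q`. -/
def FrobeniusAt (Q : Ideal (𝓞 (AlgebraicClosure K))) (q : ℕ) (g : AbsGal K) : Prop :=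
  ∀ x : 𝓞 (AlgebraicClosure K), g • x - x ^ q ∈ Q

/-- `Q` is a maximal ideal of the ring of all algebraic integers which lies above the finite
place `v` of `K`. -/
def LiesAbove [NumberField K] (v : HeightOneSpectrum (𝓞 K))
    (Q : Ideal (𝓞 (AlgebraicClosure K))) : Prop :=
  Q.IsMaximal ∧ Q.comap (algebraMap (𝓞 K) (𝓞 (AlgebraicClosure K))) = v.asIdeal

/-- All ratios of eigenvalues of the Frobenius elements at `v` are roots of unity: some power of each
Frobenius element is, under `ρ`, the sum of a scalar and a nilpotent matrix. -/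
def RatiosOfFiniteOrderAt [NumberField K] {p : ℕ} [Fact p.Prime] {n : ℕ}
    (ρ : AbsGal K →* GL (Fin n) ℚ_[p]) (v : HeightOneSpectrum (𝓞 K)) : Prop :=
  ∀ (Q : Ideal (𝓞 (AlgebraicClosure K))) (g : AbsGal K), LiesAbove v Q →
    FrobeniusAt Q (Ideal.absNorm v.asIdeal) g → ∃ k : ℕ, 0 < k ∧ ∃ c : ℚ_[p],
      IsNilpotent (((ρ g : GL (Fin n) ℚ_[p]) : Matrix (Fin n) (Fin n) ℚ_[p]) ^ k -
        c • (1 : Matrix (Fin n) (Fin n) ℚ_[p]))

/-- Every open subgroup of the image of `ρ` has a finite abelianization: if `U` is an open subgroup of the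
Galois group and `N` is a closed subgroup of `U` which contains the kernel of `ρ` and the commutators of
`U`, then `N` has finite index in `U`. -/
def FiniteAbelianizations {H : Type} [Group H] (ρ : AbsGal K →* H) : Prop :=
  ∀ U N : Subgroup (AbsGal K), IsOpen (U : Set (AbsGal K)) → IsClosed (N : Set (AbsGal K)) →
    N ≤ U → ρ.ker ≤ N → ⁅U, U⁆ ≤ N → N.relIndex U ≠ 0

/-- `τ` is in the inertia group of the ideal `P`. -/
def InInertia (P : Ideal (𝓞 (AlgebraicClosure K))) (τ : AbsGal K) : Prop :=
  ∀ x : 𝓞 (AlgebraicClosure K), τ • x - x ∈ P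

/-- `ρ` is unramified at all finite places. -/
def EverywhereUnramified {H : Type} [Group H] (ρ : AbsGal K →* H) : Prop :=
  ∀ P : Ideal (𝓞 (AlgebraicClosure K)), P.IsMaximal → ∀ τ, InInertia P τ → ρ τ = 1

variable (K) in
/-- For every finite extension of `K` (the field fixed by the open subgroup `U`), every abelian extension
unramified at all finite places (fixed by `N`) is finite. This is the finiteness of class numbers together
with class field theory. -/
def FiniteUnramifiedAbelian : Prop :=
  ∀ U N : Subgroup (AbsGal K), IsOpen (U : Set (AbsGal K)) → IsClosed (N : Set (AbsGal K)) →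
    N ≤ U → ⁅U, U⁆ ≤ N →
    (∀ P : Ideal (𝓞 (AlgebraicClosure K)), P.IsMaximal → ∀ τ ∈ U, InInertia P τ → τ ∈ N) →
    N.relIndex U ≠ 0

end

/-- **A positive proportion of Frobenius elements whose eigenvalue ratios are roots of unity.** -/
theorem result {K : Type} [Field K] [NumberField K] {p : ℕ} [Fact p.Prime] {n : ℕ}
    (ρ : AbsGal K →* GL (Fin n) ℚ_[p]) (hρ : Continuous ρ)
    -- the set of the places where the eigenvalue ratios are roots of unity has positive upper density
    (θ : ℝ) (hθ : θ < 1)
    (hfin : ∃ᶠ x : ℕ in atTop, ({v : HeightOneSpectrum (𝓞 K) | Ideal.absNorm v.asIdeal ≤ x ∧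
      ¬ RatiosOfFiniteOrderAt ρ v}.ncard : ℝ) ≤ θ * Nat.primeCounting x) :
    (∃ U : Subgroup (AbsGal K), IsOpen (U : Set (AbsGal K)) ∧ Group.IsSolvable (U.map ρ)) ∧
    (FiniteAbelianizations ρ → Finite ρ.range) ∧
    (FiniteUnramifiedAbelian K → EverywhereUnramified ρ → Finite ρ.range) := by
  classical
  have hdens : ∃ᶠ x : ℕ in atTop, Pool.Agent.W401.Cheb.dens (fun v : HeightOneSpectrum (𝓞 K) =>
      ∃ g, Pool.Agent.W401.Cheb.IsFrob v g ∧ ∀ k : ℕ, 0 < k → ∀ c : ℚ_[p],
        ¬ IsNilpotent (((ρ g : GL (Fin n) ℚ_[p]) : Matrix (Fin n) (Fin n) ℚ_[p]) ^ k -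
          c • (1 : Matrix (Fin n) (Fin n) ℚ_[p]))) x ≤ θ := by
    refine (hfin.and_eventually (Nat.tendsto_primeCounting.eventually_gt_atTop 0)).mono ?_
    rintro N ⟨h1, h3⟩
    have h4 : (0 : ℝ) < (Nat.primeCounting N : ℝ) := by exact_mod_cast h3
    have h5 : Pool.Agent.W401.Cheb.dens (fun v : HeightOneSpectrum (𝓞 K) =>
        ¬ RatiosOfFiniteOrderAt ρ v) N ≤ θ := by
      unfold Pool.Agent.W401.Cheb.dens
      rw [div_le_iff₀ h4]
      exact h1
    refine le_trans (Pool.Agent.R401.Eng.dens_le ?_ N) h5
    rintro v ⟨g, ⟨Q, hQ, hQv, hg⟩, hk⟩ hfo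
    obtain ⟨k, hk0, c, hk1⟩ := hfo Q g ⟨hQ, hQv⟩ hg
    exact hk k hk0 c hk1
  obtain ⟨U, hUn, hUo, m, hm⟩ := Pool.Agent.U849.FO.one_repr ρ hρ θ hθ hdens
  have hfinite : FiniteAbelianizations ρ → Finite ρ.range := by
    intro hab
    have hker : IsClosed (ρ.ker : Set (AbsGal K)) := by
      have h1 : (ρ.ker : Set (AbsGal K)) = ρ ⁻¹' {1} := rfl
      rw [h1]
      exact isClosed_singleton.preimage hρ
    have hU'o : IsOpen ((U ⊔ ρ.ker : Subgroup (AbsGal K)) : Set (AbsGal K)) :=
      Subgroup.isOpen_mono le_sup_left hUo
    have h1 : Pool.Agent.U849.FO.dser (U ⊔ ρ.ker) m ≤ ρ.ker := by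
      have h4 : (Pool.Agent.U849.FO.dser (U ⊔ ρ.ker) m).map ρ = ⊥ := by
        rw [Pool.Agent.U849.FO.map_dser, Subgroup.map_sup]
        have h5 : ρ.ker.map ρ = ⊥ := by
          rw [eq_bot_iff]
          rintro _ ⟨x, hx, rfl⟩
          exact Subgroup.mem_bot.2 hx
        rw [h5, sup_bot_eq, ← Pool.Agent.U849.FO.map_dser, eq_bot_iff]
        rintro _ ⟨x, hx, rfl⟩
        exact Subgroup.mem_bot.2 (hm x hx)
      intro x hx
      have h6 : ρ x ∈ (Pool.Agent.U849.FO.dser (U ⊔ ρ.ker) m).map ρ := ⟨x, hx, rfl⟩
      rw [h4] at h6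
      exact Subgroup.mem_bot.1 h6
    have h2 := Pool.Agent.U849.FO.fab ρ hker hab m _ hU'o le_sup_right h1
    have hfinU : Finite (AbsGal K ⧸ (U ⊔ ρ.ker)) := Subgroup.quotient_finite_of_isOpen _ hU'o
    have hfiU : (U ⊔ ρ.ker).FiniteIndex := Subgroup.finiteIndex_of_finite_quotient
    have hfiK : ρ.ker.FiniteIndex := ⟨by
      rw [← Subgroup.relIndex_mul_index (le_sup_right : ρ.ker ≤ U ⊔ ρ.ker)]
      exact mul_ne_zero h2 hfiU.index_ne_zero⟩
    have hq : Finite (AbsGal K ⧸ ρ.ker) := Subgroup.finite_quotient_of_finiteIndex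
    exact Finite.of_equiv _ (QuotientGroup.quotientKerEquivRange ρ).toEquiv
  refine ⟨⟨U, hUo, Pool.Agent.U849.FO.solvable_of_dser _ m ?_⟩, hfinite, fun hcft hur => hfinite ?_⟩
  · rw [← Pool.Agent.U849.FO.map_dser, eq_bot_iff]
    rintro _ ⟨x, hx, rfl⟩
    exact Subgroup.mem_bot.2 (hm x hx)
  · intro U N hU hN hNU hkN hc
    exact hcft U N hU hN hNU hc fun P hP τ _ hτ => hkN (MonoidHom.mem_ker.2 (hur P hP τ hτ))

end Pool.Agent.Results.MP_ca71b5_nt.FrobeniusRatios
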