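import Pool.Agent.U10.Twr.A
import Pool.Agent.U10.Twr.B
import Pool.Agent.U10.Twr.C
import Pool.Agent.U10.Twr.D
import Pool.Agent.U10.Twr.E
import Pool.Agent.U10.Twr.FM
import Pool.Agent.U10.Mu.Fam

/-!
# In extensions of degree prime to `p` with bounded `p`-ranks there is only one `p`-class field tower

Let `k` be a number field, `p` a prime number and `Ω` a finite or infinite Galois extension of `k` such
that the degrees of the finite extensions `L` of `k` in `Ω` are prime to `p`.  Suppose that the `p`-ranks `r(L)` of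
the class groups of these fields `L` are bounded.  For finite `Ω` this is automatic: then the theorem says
that all the towers of `Ω` come from a field whose Galois group acts faithfully on its class group modulo
`p`.  By theorems of Washington and Friedman the `p`-ranks are also bounded for the composite `Ω` of `k` with the cyclotomic `ℤ_ℓ`-extensions of `ℚ` for finitely many
primes `ℓ ≠ p`, if `k` is abelian over `ℚ`.  Then there is a finite Galois extension `L₀ ⊆ Ω` of `k` with
the following properties.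

1. `Gal(L₀/k)` is isomorphic to a group of `r × r` matrices over `F_p`, where `r = r(L₀)` is the largest of the
   `p`-ranks, and `r(L) = r(L ∩ L₀)` for all `L`.
2. For all `L` which contain `L₀` the `p`-class field tower of `L` is the composite of `L` and the
   `p`-class field tower of `L₀`: `Gal(k̄/L_∅(p)) = Gal(k̄/L) ∩ Gal(k̄/L₀_∅(p))`.  So (as the degree of `L` over
   `L₀` is prime to `p`) the groups `G_{L,∅}(p)` and `G_{L₀,∅}(p)` are the same.
3. The conjecture for `L₀` is equivalent to the conjecture for all `L` in `Ω` (also for those which do not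
   contain `L₀`): every continuous unramified representation of `Gal(k̄/L)` over `ℤ_p` whose image is a
   pro-`p`-group has finite image.

Proof.  (1) The `p`-ranks are supermodular: `r(L) + r(L') ≤ r(L L') + r(L ∩ L')`; this gives a smallest field
`L₀` of maximal `p`-rank.  (2) Let `F ⊆ Ω` be Galois over `k` and contain `L₀`, and let `M` be a finite unramified
`p`-extension of `F` which is Galois over `L₀`.  As `r(F) = r(L₀)`, every unramified homomorphism of `Gal(M/F)` to
`ℤ/p` extends to `Gal(M/L₀)`.  Elements of order prime to `p` act trivially on the Frattini quotient of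
`Gal(M/F)`, so they centralize this group, and it is a direct factor of `Gal(M/L₀)`.  The other factor cuts
out a `p`-extension of `L₀`; it is unramified, because the images of the inertia groups in its Galois group
have order prime to `p`.  (3) A representation of `Gal(k̄/L)` is trivial on `Gal(k̄/L_∅(p))`; its restriction to
`Gal(k̄/L L₀)` extends by (2) to `Gal(k̄/L₀)`.
-/

open Module

namespace Pool.Agent.Results.MP_ca71b5_nt.OneTower

open Pool.Agent.U10.Shr (ine conj_ine)
open Pool.Agent.U10.Mu (E Stab rkF Ctl)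
open Pool.Agent.U10.Twr (up dn dn_mul tower Unr UnrRep FM)

variable {k : Type} [Field k]

/-- The automorphism `t` is in the inertia group of a place: the inertia group of a valuation ring `V` of the
algebraic closure, or, for the real places, `t² = 1` (then `t` is a complex conjugation or `1`). -/
def InInertia (t : AlgebraicClosure k ≃ₐ[k] AlgebraicClosure k) : Prop :=
  (∃ V : ValuationSubring (AlgebraicClosure k), t ∈ ine k V) ∨ t * t = 1

/-- The family of the inertia groups. -/
def famU (k : Type) [Field k] :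
    Set (Subgroup (AlgebraicClosure k ≃ₐ[k] AlgebraicClosure k)) :=
  {D | (∃ V : ValuationSubring (AlgebraicClosure k), D = ine k V) ∨
    ∃ t : AlgebraicClosure k ≃ₐ[k] AlgebraicClosure k, t * t = 1 ∧ D = Subgroup.zpowers t}

theorem mem_famU {D : Subgroup (AlgebraicClosure k ≃ₐ[k] AlgebraicClosure k)} (hD : D ∈ famU k)
    {x : AlgebraicClosure k ≃ₐ[k] AlgebraicClosure k} (hx : x ∈ D) : InInertia x := by
  rcases hD with ⟨V, rfl⟩ | ⟨t, ht, rfl⟩
  · exact Or.inl ⟨V, hx⟩
  · right
    obtain ⟨n, rfl⟩ := Subgroup.mem_zpowers_iff.1 hx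
    rw [← (Commute.refl t).mul_zpow n, ht, one_zpow]

theorem of_inertia {x : AlgebraicClosure k ≃ₐ[k] AlgebraicClosure k} (hx : InInertia x) :
    ∃ D ∈ famU k, x ∈ D := by
  rcases hx with ⟨V, hV⟩ | hx
  · exact ⟨_, Or.inl ⟨V, rfl⟩, hV⟩
  · exact ⟨_, Or.inr ⟨x, hx, rfl⟩, Subgroup.mem_zpowers x⟩

theorem stab_famU : Stab (famU k) := by
  rintro D (⟨V, rfl⟩ | ⟨t, ht, rfl⟩) g
  · exact ⟨_, Or.inl ⟨V.comap (g : AlgebraicClosure k →+* AlgebraicClosure k), rfl⟩,
      fun σ hσ => conj_ine k V g hσ⟩
  · refine ⟨Subgroup.zpowers (g⁻¹ * t * g), Or.inr ⟨g⁻¹ * t * g, ?_, rfl⟩, fun σ hσ => ?_⟩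
    · have h1 : g⁻¹ * t * g * (g⁻¹ * t * g) = g⁻¹ * (t * t) * g := by group
      rw [h1, ht, mul_one, inv_mul_cancel]
    · obtain ⟨n, rfl⟩ := Subgroup.mem_zpowers_iff.1 hσ
      refine Subgroup.mem_zpowers_iff.2 ⟨n, ?_⟩
      have h1 : g⁻¹ * t * g = g⁻¹ * t * g⁻¹⁻¹ := by rw [inv_inv]
      rw [h1, conj_zpow, inv_inv]

section defs

variable (p : ℕ) [Fact p.Prime] (L : IntermediateField k (AlgebraicClosure k))

/-- `f` is a continuous homomorphism from the absolute Galois group of `L` to `ℤ/p` which is unramified at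
all finite and infinite places. -/
def IsUnrHom (f : L.fixingSubgroup → ZMod p) : Prop :=
  (∀ x y, f (x * y) = f x + f y) ∧ IsLocallyConstant f ∧ ∀ x, InInertia x.1 → f x = 0

variable {p L} in
theorem isUnrHom_iff (f : L.fixingSubgroup → ZMod p) :
    IsUnrHom p L f ↔ (fun x => f (dn x)) ∈ E (1 : _ →* ZMod p) (famU k) L.fixingSubgroup := by
  constructor
  · rintro ⟨h1, h2, h3⟩
    refine ⟨fun x y => h1 (dn x) (dn y), ?_, fun D hD x hx => h3 _ (mem_famU hD hx),
      fun σ hσ x y hxy => ?_⟩
    · exact (h2.continuous).comp (Continuous.subtype_mk continuous_subtype_val _)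
    · have h4 : dn y = ⟨σ, hσ⟩ * dn x * ⟨σ, hσ⟩⁻¹ := Subtype.ext hxy
      change f (dn y) = 1 * f (dn x)
      have h5 : f 1 = 0 := by
        have h6 := h1 1 1
        rw [mul_one] at h6
        exact left_eq_add.1 h6
      have h7 : f ⟨σ, hσ⟩ + f ⟨σ, hσ⟩⁻¹ = 0 := by
        rw [← h1, mul_inv_cancel, h5]
      rw [h4, h1, h1, one_mul]
      linear_combination h7
  · rintro ⟨h1, h2, h3, -⟩
    refine ⟨fun x y => h1 (up x) (up y), ?_, fun x hx => ?_⟩
    · have h4 : Continuous f := h2.comp
        (Continuous.subtype_mk continuous_subtype_val (fun x => (up x).2) :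
          Continuous (fun x : L.fixingSubgroup => up x))
      exact (IsLocallyConstant.iff_continuous f).2 h4
    · obtain ⟨D, hD, hxD⟩ := of_inertia hx
      exact h3 D hD (up x) hxD

/-- The space of these homomorphisms. -/
noncomputable def unrHoms : Submodule (ZMod p) (L.fixingSubgroup → ZMod p) where
  carrier := {f | IsUnrHom p L f}
  add_mem' := fun {f g} hf hg => (isUnrHom_iff _).2
    (add_mem ((isUnrHom_iff f).1 hf) ((isUnrHom_iff g).1 hg))
  zero_mem' := (isUnrHom_iff _).2 (zero_mem _)
  smul_mem' := fun c {f} hf => (isUnrHom_iff _).2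
    (Submodule.smul_mem _ c ((isUnrHom_iff f).1 hf))

/-- The dimension of this space: by class field theory the `p`-rank `r(L)` of the class group of `L`. -/
noncomputable def prank : Cardinal := Module.rank (ZMod p) (unrHoms p L)

/-- The linear equivalence of the two descriptions. -/
noncomputable def eqv :
    unrHoms p L ≃ₗ[ZMod p] E (1 : _ →* ZMod p) (famU k) L.fixingSubgroup where
  toFun f := ⟨fun x => f.1 (dn x), (isUnrHom_iff f.1).1 f.2⟩
  invFun g := ⟨fun x => g.1 (up x), (isUnrHom_iff (fun x => g.1 (up x))).2 g.2⟩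
  left_inv _ := rfl
  right_inv _ := rfl
  map_add' _ _ := rfl
  map_smul' _ _ := rfl

theorem prank_eq : prank p L = rkF (1 : _ →* ZMod p) (famU k) L := (eqv p L).rank_eq

/-- `U` is the absolute Galois group of a finite unramified Galois extension of `L` of degree a power of
`p`. -/
def IsStep (U : Subgroup (AlgebraicClosure k ≃ₐ[k] AlgebraicClosure k)) : Prop :=
  U ≤ L.fixingSubgroup ∧ IsOpen (U : Set (AlgebraicClosure k ≃ₐ[k] AlgebraicClosure k)) ∧
  (∀ h ∈ L.fixingSubgroup, ∀ u ∈ U, h * u * h⁻¹ ∈ U) ∧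
  (∃ e : ℕ, U.relIndex L.fixingSubgroup = p ^ e) ∧
  ∀ x ∈ L.fixingSubgroup, InInertia x → x ∈ U

/-- The absolute Galois group of the `p`-class field tower `L_∅(p)` of `L`, the composite of all these
extensions. -/
noncomputable def towerGroup :
    Subgroup (AlgebraicClosure k ≃ₐ[k] AlgebraicClosure k) := sInf {U | IsStep p L U}

omit [Fact p.Prime] in
theorem towerGroup_eq : towerGroup p L = tower p (famU k) L.fixingSubgroup := by
  unfold towerGroup tower
  congr 1
  ext U
  constructor
  · rintro ⟨h1, h2, h3, h4, h5⟩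
    exact ⟨h1, h2, h3, h4, fun D hD x hx => h5 x hx.2 (mem_famU hD hx.1)⟩
  · rintro ⟨h1, h2, h3, h4, h5⟩
    refine ⟨h1, h2, h3, h4, fun x hx hi => ?_⟩
    obtain ⟨D, hD, hxD⟩ := of_inertia hi
    exact h5 D hD ⟨hxD, hx⟩

/-- `ρ` is a continuous representation of the absolute Galois group of `L` which is unramified at all places
and whose image is a pro-`p`-group (the elements of its reduction modulo `p` have order a power of `p`). -/
def IsUnrRep (n : ℕ) (ρ : L.fixingSubgroup →* GL (Fin n) ℤ_[p]) : Prop :=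
  Continuous ρ ∧ (∀ x, InInertia x.1 → ρ x = 1) ∧
  ∀ x, ∃ e : ℕ,
    (Matrix.GeneralLinearGroup.map (PadicInt.toZMod : ℤ_[p] →+* ZMod p) (ρ x)) ^ (p ^ e) = 1

/-- The conjecture for `L`: these representations have finite image. -/
def FontaineMazur : Prop :=
  ∀ (n : ℕ) (ρ : L.fixingSubgroup →* GL (Fin n) ℤ_[p]), IsUnrRep p L n ρ → (Set.range ρ).Finite

theorem fm_iff : FontaineMazur p L ↔ FM p (famU k) L.fixingSubgroup := by
  constructor
  · intro h n ρ hρ
    refine h n ρ ⟨hρ.cont, fun x hx => ?_, hρ.pro⟩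
    obtain ⟨D, hD, hxD⟩ := of_inertia hx
    exact hρ.ram D hD x hxD
  · rintro h n ρ ⟨h1, h2, h3⟩
    exact h n ρ ⟨h1, fun D hD x hx => h2 x (mem_famU hD hx), h3⟩

end defs

theorem result (k : Type) [Field k] [NumberField k] (p : ℕ) [Fact p.Prime]
    (Ω : IntermediateField k (AlgebraicClosure k)) (hΩ : Normal k Ω)
    (hd : ∀ L ≤ Ω, FiniteDimensional k L → ¬ p ∣ finrank k L)
    (m : ℕ) (hm : ∀ L ≤ Ω, FiniteDimensional k L → prank p L ≤ m) :
    ∃ L₀ ≤ Ω, FiniteDimensional k L₀ ∧ IsGalois k L₀ ∧
      (∃ φ : (L₀ ≃ₐ[k] L₀) →* GL (Fin (prank p L₀).toNat) (ZMod p), Function.Injective φ) ∧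
      (∀ L ≤ Ω, FiniteDimensional k L → prank p L = prank p (L ⊓ L₀)) ∧
      (∀ L ≤ Ω, FiniteDimensional k L → L₀ ≤ L →
        towerGroup p L = L.fixingSubgroup ⊓ towerGroup p L₀) ∧
      (FontaineMazur p L₀ ↔ ∀ L ≤ Ω, FiniteDimensional k L → FontaineMazur p L) := by
  have hr : ∀ L : IntermediateField k (AlgebraicClosure k), prank p L =
      rkF (1 : _ →* ZMod p) (famU k) L := prank_eq p
  have ht : ∀ L : IntermediateField k (AlgebraicClosure k), towerGroup p L =
      tower p (famU k) L.fixingSubgroup := towerGroup_eq p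
  obtain ⟨L₀, h1, h2, h3, h4, -, h5, h6⟩ := Pool.Agent.U10.Twr.main_tower (p := p)
    (F := famU k) stab_famU hΩ hd
    (Pool.Agent.U10.Twr.C.proof (Pool.Agent.U10.Twr.B.proof Pool.Agent.U10.Twr.A.proof)) m
    (fun L hL hf => by rw [← hr]; exact hm L hL hf)
  refine ⟨L₀, h1, h2, h3, ?_, ?_, ?_, ?_⟩
  · rw [hr]
    exact h5
  · intro L hL hf
    rw [hr, hr]
    exact h4 L hL hf
  · intro L hL hf hle
    rw [ht, ht]
    exact h6 L hL hf hle
  · constructor
    · intro h L hL hf
      rw [fm_iff] at h ⊢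
      exact Pool.Agent.U10.Twr.transfer
        (Pool.Agent.U10.Twr.E.proof Pool.Agent.U10.Twr.D.proof) hd h1 h2 h6 h L hL hf
    · intro h
      exact h L₀ h1 h2

end Pool.Agent.Results.MP_ca71b5_nt.OneTower
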