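import Pool.Agent.U419.UG.Main
import Pool.Agent.U419.UG.Fin

/-!
# Unramified representations which extend to the Galois group of a smaller number field

Let `K / F` be a Galois extension of number fields, `S` a set of prime numbers (`S = ∅` in the
question), `A` a noetherian local domain with its adic topology and finite residue field `κ` of
characteristic `p`, and `ρ` a continuous representation of rank `n` of the absolute Galois group of
`F` with coefficients in `A`, whose restriction to the absolute Galois group of `K` is unramified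
at all real places and all finite places outside `S`, and residually unipotent. Let `σ` be an element
of the absolute Galois group of `F`, and `C` the set of its eigenvalues on the space of the
unramified (outside `S`) homomorphisms from the absolute Galois group of `K` to an algebraic closure
of `κ` (for `S = ∅` the dual of the class group of `K`, by class field theory). Suppose that there
is no cycle `α₀, c₁ α₀, c₂ c₁ α₀, …, c_m … c₁ α₀ = α₀` (`1 ≤ m ≤ n`, `c_i ∈ C`) in the set of
eigenvalues of the reduction of `ρ σ`; for instance, that no product of at least one and at most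
`n` elements of `C` is `1`.

Then all products of `n` of the `ρ g - 1`, `g` in the absolute Galois group of `K`, are zero. If `ρ`
is semisimple, then `ρ` is trivial on the absolute Galois group of `K`, so it has finite image.
-/

set_option autoImplicit false

open NumberField IsLocalRing

namespace Pool.Agent.Results.MP_ca71b5_nt.StableRepresentations

/-- an algebraic closure `Ω` of `F` -/
abbrev Om (F : Type) [Field F] : Type := AlgebraicClosure F

/-- the absolute Galois group of `F`, with the Krull topology -/
abbrev GG (F : Type) [Field F] : Type := Gal(AlgebraicClosure F/F)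

/-- the absolute Galois group of `K`, as a subgroup of that of `F` -/
noncomputable def HH {F : Type} [Field F] (K : IntermediateField F (Om F)) : Subgroup (GG F) :=
  K.fixingSubgroup

/-- the union of the inertia groups at the finite places which do not lie above the primes of `S`, and
of all elements `τ` with `τ ^ 2 = 1` (the complex conjugations and `1`) -/
def Inertia (F : Type) [Field F] (S : Set ℕ) : Set (GG F) :=
  {τ | (∃ P : Ideal (𝓞 (Om F)), P.IsMaximal ∧ (∀ q ∈ S, (q : 𝓞 (Om F)) ∉ P) ∧
    ∀ x : 𝓞 (Om F), τ • x - x ∈ P) ∨ τ * τ = 1}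

/-- The restriction of `ρ` to the absolute Galois group of `K` is unramified at all real places and at
all finite places which do not lie above the primes of `S`. -/
def UnramifiedOver {F : Type} [Field F] (K : IntermediateField F (Om F)) (S : Set ℕ) {A : Type}
    [CommRing A] {n : ℕ} (ρ : GG F →* GL (Fin n) A) : Prop :=
  ∀ τ ∈ HH K, τ ∈ Inertia F S → ρ τ = 1

/-- The reduction of `ρ` is unipotent on the absolute Galois group of `K`: for all its elements `g`,
some power of `ρ g - 1` has all entries in the maximal ideal. -/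
def ResiduallyUnipotentOver {F : Type} [Field F] (K : IntermediateField F (Om F)) {A : Type}
    [CommRing A] [IsLocalRing A] {n : ℕ} (ρ : GG F →* GL (Fin n) A) : Prop :=
  ∀ g ∈ HH K, ∃ M : ℕ, ∀ i j,
    (((ρ g : Matrix (Fin n) (Fin n) A) - 1) ^ M) i j ∈ maximalIdeal A

/-- The representation on `Λ ^ n` is semisimple: every invariant subspace has an invariant
complement. -/
def Semisimple {F : Type} [Field F] {n : ℕ} {A : Type} [CommRing A] (Λ : Type) [Field Λ]
    [Algebra A Λ] (ρ : GG F →* GL (Fin n) A) : Prop :=
  ∀ W : Submodule Λ (Fin n → Λ),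
    (∀ g, ∀ w ∈ W, Matrix.mulVec ((ρ g : Matrix (Fin n) (Fin n) A).map (algebraMap A Λ)) w ∈ W) →
    ∃ W' : Submodule Λ (Fin n → Λ), IsCompl W W' ∧
      ∀ g, ∀ w ∈ W', Matrix.mulVec ((ρ g : Matrix (Fin n) (Fin n) A).map (algebraMap A Λ)) w ∈ W'

/-- The set of eigenvalues of `σ` on the space of the unramified (outside `S`) homomorphisms from the
absolute Galois group of `K` to `E`: the `c` such that `χ (σ g σ⁻¹) = c χ g` for some nonzero
continuous homomorphism `χ` to the (discrete) additive group of `E` which is trivial on the inertia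
groups. -/
def Eigenvalues {F : Type} [Field F] (K : IntermediateField F (Om F)) (S : Set ℕ) (E : Type)
    [Field E] (σ : GG F) : Set E :=
  {c | ∃ χ : HH K → E, (∃ g, χ g ≠ 0) ∧ (∀ g h, χ (g * h) = χ g + χ h) ∧
    (∃ U : Subgroup (HH K), IsOpen (U : Set (HH K)) ∧ ∀ g ∈ U, χ g = 0) ∧
    (∀ τ : HH K, (τ : GG F) ∈ Inertia F S → χ τ = 0) ∧
    ∀ g h : HH K, (h : GG F) = σ * g * σ⁻¹ → χ h = c * χ g}

/-- `α` is an eigenvalue, in an algebraic closure of the residue field, of the reduction of `ρ σ`. -/
def ResidualEigenvalue {F : Type} [Field F] {A : Type} [CommRing A] [IsLocalRing A] {n : ℕ}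
    (ρ : GG F →* GL (Fin n) A) (σ : GG F) (α : AlgebraicClosure (ResidueField A)) : Prop :=
  (((ρ σ : Matrix (Fin n) (Fin n) A).charpoly.map (residue A)).map
    (algebraMap (ResidueField A) (AlgebraicClosure (ResidueField A)))).IsRoot α

/-- There are `1 ≤ m ≤ n` and eigenvalues `α 0, …, α m = α 0` of the reduction of `ρ σ` with
`α (i + 1) ∈ C α i` for all `i < m`. -/
def HasCycle {F : Type} [Field F] {A : Type} [CommRing A] [IsLocalRing A] {n : ℕ}
    (ρ : GG F →* GL (Fin n) A) (σ : GG F) (C : Set (AlgebraicClosure (ResidueField A))) : Prop :=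
  ∃ (m : ℕ) (α : ℕ → AlgebraicClosure (ResidueField A)), 1 ≤ m ∧ m ≤ n ∧ α m = α 0 ∧
    (∀ i ≤ m, ResidualEigenvalue ρ σ (α i)) ∧ ∀ i < m, ∃ c ∈ C, α (i + 1) = c * α i

/-- No product of at least one and at most `n` elements of `C` is `1`. -/
def NoProductIsOne {E : Type} [Field E] (C : Set E) (n : ℕ) : Prop :=
  ∀ m, 1 ≤ m → m ≤ n → ∀ c : Fin m → E, (∀ i, c i ∈ C) → ∏ i, c i ≠ 1

/-- `A` is a local ring with its adic topology, with finite residue field of characteristic `p`, and `ρ`
is continuous, and unramified outside `S` and residually unipotent on the absolute Galois group of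
`K`. -/
structure IsAdmissible {F : Type} [Field F] (K : IntermediateField F (Om F)) (S : Set ℕ) (p : ℕ)
    {A : Type} [CommRing A] [IsLocalRing A] [TopologicalSpace A] {n : ℕ}
    (ρ : GG F →* GL (Fin n) A) : Prop where
  prime : p.Prime
  adic : IsAdic (maximalIdeal A)
  finite : Finite (ResidueField A)
  char : (p : A) ∈ maximalIdeal A
  continuous : Continuous ρ
  unramified : UnramifiedOver K S ρ
  unipotent : ResiduallyUnipotentOver K ρ

/-- The set of eigenvalues of `σ` on the space of the unramified (outside `S`) homomorphisms from the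
absolute Galois group of `K` to an algebraic closure of the residue field of `A`. -/
abbrev CC {F : Type} [Field F] (K : IntermediateField F (Om F)) (S : Set ℕ) (A : Type)
    [CommRing A] [IsLocalRing A] (σ : GG F) : Set (AlgebraicClosure (ResidueField A)) :=
  Eigenvalues K S (AlgebraicClosure (ResidueField A)) σ

/-- All products of `n` of the `ρ g - 1`, `g` in the absolute Galois group of `K`, are zero. -/
def ProductsVanish {F : Type} [Field F] (K : IntermediateField F (Om F)) {A : Type} [CommRing A]
    {n : ℕ} (ρ : GG F →* GL (Fin n) A) : Prop :=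
  ∀ g : Fin n → GG F, (∀ s, g s ∈ HH K) →
    (List.ofFn fun s => (ρ (g s) : Matrix (Fin n) (Fin n) A) - 1).prod = 0

/-- If `ρ` is semisimple, then it is trivial on the absolute Galois group of `K` and has finite
image. -/
def TrivialIfSemisimple {F : Type} [Field F] (K : IntermediateField F (Om F)) {A : Type}
    [CommRing A] [IsDomain A] {n : ℕ} (ρ : GG F →* GL (Fin n) A) : Prop :=
  ∀ (Λ : Type) [Field Λ] [Algebra A Λ] [IsFractionRing A Λ], Semisimple Λ ρ →
    (∀ g ∈ HH K, ρ g = 1) ∧ (Set.range ρ).Finite

theorem noCycle {F : Type} [Field F] {A : Type} [CommRing A] [IsLocalRing A] {n : ℕ}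
    (ρ : GG F →* GL (Fin n) A) (σ : GG F) (C : Set (AlgebraicClosure (ResidueField A)))
    (h : NoProductIsOne C n) : ¬ HasCycle ρ σ C := by
  rintro ⟨m, α, h1, h2, h3, h4, h5⟩
  choose! c hc hcα using h5
  refine h m h1 h2 (fun i => c i) (fun i => hc i i.2) ?_
  have h6 : ∀ j ≤ m, α j = (∏ i ∈ Finset.range j, c i) * α 0 := by
    intro j
    induction j with
    | zero => intro _; simp
    | succ j ih =>
      intro hj
      rw [hcα j (by omega), ih (by omega), Finset.prod_range_succ]
      ring
  have h7 := h6 m le_rfl
  rw [h3] at h7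
  have h8 : α 0 ≠ 0 := by
    intro h0
    have h9 := h4 0 (by omega)
    unfold ResidualEigenvalue at h9
    rw [h0, Polynomial.map_map, Polynomial.IsRoot.def, ← Polynomial.coeff_zero_eq_eval_zero,
      Polynomial.coeff_map] at h9
    have h10 : IsUnit ((ρ σ : Matrix (Fin n) (Fin n) A).det) :=
      (Matrix.isUnit_iff_isUnit_det _).1 (ρ σ).isUnit
    have h11 := h10.map (((algebraMap (ResidueField A) (AlgebraicClosure (ResidueField A)))).comp
      (residue A))
    rw [Matrix.det_eq_sign_charpoly_coeff, map_mul, h9, mul_zero] at h11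
    exact not_isUnit_zero h11
  rw [Fin.prod_univ_eq_prod_range (fun i => c i) m]
  have h12 : (∏ i ∈ Finset.range m, c i) * α 0 = 1 * α 0 := by rw [one_mul]; exact h7.symm
  exact mul_right_cancel₀ h8 h12

theorem result (F : Type) [Field F] [NumberField F] (K : IntermediateField F (Om F))
    [FiniteDimensional F K] [IsGalois F K] (S : Set ℕ) (p : ℕ) (A : Type) [CommRing A]
    [IsDomain A] [IsLocalRing A] [IsNoetherianRing A] [TopologicalSpace A] (n : ℕ)
    (ρ : GG F →* GL (Fin n) A) (hadm : IsAdmissible K S p ρ) (σ : GG F)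
    (h : ¬ HasCycle ρ σ (CC K S A σ) ∨ NoProductIsOne (CC K S A σ) n) :
    ProductsVanish K ρ ∧ TrivialIfSemisimple K ρ := by
  obtain ⟨hp, hA, hfin, hpA, hρ, hur, hres⟩ := hadm
  classical
  have h : ¬ HasCycle ρ σ (Eigenvalues K S (AlgebraicClosure (ResidueField A)) σ) := by
    rcases h with h | h
    · exact h
    · exact noCycle ρ σ _ h
  have hN : (HH K).Normal := by
    unfold HH
    rw [← IntermediateField.restrictNormalHom_ker]
    infer_instance
  have hE : ∀ a ∈ maximalIdeal A, algebraMap A (AlgebraicClosure (ResidueField A)) a = 0 := by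
    intro a ha
    rw [IsScalarTower.algebraMap_apply A (ResidueField A) (AlgebraicClosure (ResidueField A))]
    have : algebraMap A (ResidueField A) a = 0 := (residue_eq_zero_iff a).2 ha
    rw [this, map_zero]
  have hnil := Pool.Agent.U419.UG.nilG (H := HH K) hE hp hA hfin hpA ρ
    hρ (Inertia F S) (fun τ hτ => hur τ τ.2 hτ) (fun g => hres g g.2) σ (by
      rintro ⟨m, α, h1, h2, h3, h4, h5⟩
      refine h ⟨m, α, h1, h2, h3, fun i hi => ?_, h5⟩
      have h6 := h4 i hi
      unfold ResidualEigenvalue
      rw [Polynomial.map_map]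
      exact h6)
  refine ⟨?_, ?_⟩
  · intro g hg
    rw [← Submodule.mem_bot A, ← hnil, Submodule.span_pow]
    refine Submodule.subset_span ?_
    rw [Set.mem_pow]
    exact ⟨fun s => ⟨(ρ (g s) : Matrix (Fin n) (Fin n) A) - 1, ⟨⟨g s, hg s⟩, rfl⟩⟩, rfl⟩
  · intro Λ _ _ _ hss
    have htriv : ∀ g ∈ HH K, ρ g = 1 := fun g hg =>
      Pool.Agent.W569.UG.trivial_of_semisimple (Λ := Λ) (HH K) ρ hnil hss ⟨g, hg⟩
    refine ⟨htriv, ?_⟩
    have hfi : Finite (GG F ⧸ HH K) :=
      Subgroup.quotient_finite_of_isOpen _ (IntermediateField.fixingSubgroup_isOpen K)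
    have hle : HH K ≤ ρ.ker := fun g hg => htriv g hg
    refine (Set.finite_range (QuotientGroup.lift (HH K) ρ hle)).subset ?_
    rintro _ ⟨g, rfl⟩
    exact ⟨(g : GG F ⧸ HH K), rfl⟩

end Pool.Agent.Results.MP_ca71b5_nt.StableRepresentations
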